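import Pool.Agent.Helper29_HSet.Main

/-!
MP_19dfdc_nt: for every `b ≥ 2` the squares of the base-`b` zero-one integers form an
`H`-set, with the explicit rate `C / (1 + log N) ^ c` for every `c < 1 / 3`.
-/

set_option autoImplicit false

namespace Pool.Agent.Results.MP_19dfdc_nt.SquaresHSet

open Finset Filter Topology
open Pool.Agent.Helper29_HSet

/-- positive integers all of whose base-`b` digits are `0` or `1` -/
def zeroOne (b : ℕ) : Set ℕ := {s | ∃ F : Finset ℕ, F.Nonempty ∧ s = ∑ i ∈ F, b ^ i}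

/-- `H` is an `H`-set with the function `f` -/
def IsHSetWith (H : Set ℕ) (f : ℕ → ℝ) : Prop :=
  Tendsto f atTop (𝓝 0) ∧
    ∀ γ : ℝ, ∀ N : ℕ, (∃ n ∈ H, 1 ≤ n ∧ n ≤ N) →
      ∃ n ∈ H, 1 ≤ n ∧ n ≤ N ∧ |(n : ℝ) * γ - round ((n : ℝ) * γ)| ≤ f N

lemma tendsto_rate (C c : ℝ) (hc : 0 < c) :
    Tendsto (fun N : ℕ => C / (1 + Real.log N) ^ c) atTop (𝓝 0) := by
  have h1 : Tendsto (fun N : ℕ => 1 + Real.log (N : ℝ)) atTop atTop :=
    tendsto_atTop_add_const_left _ _ (Real.tendsto_log_atTop.comp tendsto_natCast_atTop_atTop)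
  have h2 : Tendsto (fun N : ℕ => (1 + Real.log (N : ℝ)) ^ c) atTop atTop :=
    (tendsto_rpow_atTop hc).comp h1
  exact h2.const_div_atTop C

theorem result (b : ℕ) (hb : 2 ≤ b) (c : ℝ) (hc0 : 0 < c) (hc : c < 1 / 3) :
    ∃ C : ℝ, 0 < C ∧
      IsHSetWith {n | ∃ s ∈ zeroOne b, n = s ^ 2} (fun N => C / (1 + Real.log N) ^ c) := by
  have ha : 3 < 1 / c := by
    rw [lt_div_iff₀ hc0]; linarith
  obtain ⟨C0, hC0, hmain⟩ := exists_digits hb (1 / c) ha
  have hb1 : (2 : ℝ) ≤ b := by exact_mod_cast hb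
  have hlogb : 0 < Real.log b := Real.log_pos (by linarith)
  set C1 : ℝ := 4 * C0 * Real.log b + 2 with hC1
  have hC1pos : 2 ≤ C1 := by
    have : 0 ≤ 4 * C0 * Real.log b := by positivity
    linarith
  refine ⟨C1 ^ c, by positivity, tendsto_rate _ _ hc0, ?_⟩
  intro γ N hN
  obtain ⟨n0, hn0, hn01, hn0N⟩ := hN
  have hN1 : 1 ≤ N := hn01.trans hn0N
  have hN1' : (1 : ℝ) ≤ N := by exact_mod_cast hN1
  have hlogN : 0 ≤ Real.log N := Real.log_nonneg hN1'
  set X : ℝ := (1 + Real.log N) / C1 with hX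
  have hX0 : 0 < X := by positivity
  have hrate : C1 ^ c / (1 + Real.log N) ^ c = 1 / X ^ c := by
    rw [hX, Real.div_rpow (by linarith) (by linarith)]
    have : (1 + Real.log N) ^ c ≠ 0 := by positivity
    have : C1 ^ c ≠ 0 := by positivity
    field_simp
  set n := ⌊X ^ c⌋₊ with hn
  have hXc : 0 < X ^ c := by positivity
  by_cases hn1 : 1 ≤ n
  · have hnle : (n : ℝ) ≤ X ^ c := Nat.floor_le hXc.le
    have hnlt : X ^ c < n + 1 := Nat.lt_floor_add_one _
    have hn1' : (1 : ℝ) ≤ n := by exact_mod_cast hn1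
    obtain ⟨K, hK, hKγ⟩ := hmain n hn1
    obtain ⟨F, hF, hFK, hFd⟩ := hKγ γ
    have hnX : (n : ℝ) ^ (1 / c) ≤ X := by
      calc (n : ℝ) ^ (1 / c) ≤ (X ^ c) ^ (1 / c) :=
            Real.rpow_le_rpow (by linarith) hnle (by positivity)
        _ = X := by
            rw [← Real.rpow_mul hX0.le]
            have : c * (1 / c) = 1 := by field_simp
            rw [this, Real.rpow_one]
    have hX1 : 1 ≤ X := by
      have h1 : (1 : ℝ) ≤ (n : ℝ) ^ (1 / c) := Real.one_le_rpow hn1' (by positivity)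
      linarith
    have hbig : C1 ≤ 1 + Real.log N := by
      rw [hX, le_div_iff₀ (by linarith)] at hX1
      linarith
    have hKX : (K : ℝ) ≤ C0 * X := hK.trans (by gcongr)
    have hKlog : 2 * K * Real.log b ≤ Real.log N := by
      have h1 : 2 * K * Real.log b ≤ 2 * (C0 * X) * Real.log b := by gcongr
      have h2 : 2 * (C0 * X) * Real.log b = (2 * C0 * Real.log b) / C1 * (1 + Real.log N) := by
        rw [hX]; ring
      have h3 : (2 * C0 * Real.log b) / C1 ≤ 1 / 2 := by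
        rw [div_le_iff₀ (by linarith)]
        linarith
      have h4 : (2 * C0 * Real.log b) / C1 * (1 + Real.log N) ≤ 1 / 2 * (1 + Real.log N) := by
        gcongr
      linarith
    set s := ∑ i ∈ F, b ^ i with hs
    have hsDS : s ∈ DS b K := (mem_DS_iff K s).mpr ⟨F, hFK, rfl⟩
    have hslt := DS_lt hb K s hsDS
    have hspos : 1 ≤ s := by
      obtain ⟨i, hi⟩ := hF
      have h1 : b ^ i ≤ s := single_le_sum (f := fun i => b ^ i) (fun _ _ => Nat.zero_le _) hi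
      have h2 : 1 ≤ b ^ i := Nat.one_le_pow _ _ (by omega)
      omega
    have hsN : s ^ 2 ≤ N := by
      have h1 : ((s : ℝ)) ≤ (b : ℝ) ^ K := by exact_mod_cast hslt.le
      have h2 : (s : ℝ) ^ 2 ≤ (b : ℝ) ^ (2 * K) := by
        calc (s : ℝ) ^ 2 ≤ ((b : ℝ) ^ K) ^ 2 := pow_le_pow_left₀ (by positivity) h1 2
          _ = (b : ℝ) ^ (2 * K) := by rw [← pow_mul]; congr 1; ring
      have h3 : (b : ℝ) ^ (2 * K) ≤ N := by
        rw [← Real.log_le_log_iff (by positivity) (by linarith), Real.log_pow]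
        push_cast
        linarith
      exact_mod_cast h2.trans h3
    refine ⟨s ^ 2, ⟨s, ⟨F, hF, rfl⟩, rfl⟩, Nat.one_le_pow _ _ hspos, hsN, ?_⟩
    show _ ≤ C1 ^ c / (1 + Real.log N) ^ c
    rw [hrate]
    have h5 : |(((s ^ 2 : ℕ) : ℝ)) * γ - round (((s ^ 2 : ℕ) : ℝ) * γ)| = dInt (γ * (s : ℝ) ^ 2) := by
      unfold dInt
      rw [show (((s ^ 2 : ℕ) : ℝ)) * γ = γ * (s : ℝ) ^ 2 by push_cast; ring]
    rw [h5]
    refine hFd.le.trans ?_
    exact one_div_le_one_div_of_le hXc hnlt.le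
  · have hXlt : X ^ c < 1 := by
      have : n = 0 := by omega
      exact (Nat.floor_eq_zero.mp this)
    refine ⟨1, ⟨1, ⟨{0}, ⟨0, by simp⟩, by simp⟩, by norm_num⟩, le_rfl, hN1, ?_⟩
    show _ ≤ C1 ^ c / (1 + Real.log N) ^ c
    rw [hrate]
    have h1 : |((1 : ℕ) : ℝ) * γ - round (((1 : ℕ) : ℝ) * γ)| ≤ 1 / 2 := abs_sub_round _
    have h2 : (1 : ℝ) ≤ 1 / X ^ c := by
      rw [le_div_iff₀ hXc]; linarith
    linarith

end Pool.Agent.Results.MP_19dfdc_nt.SquaresHSet
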